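import Pool.Agent.P8H39.TI.Stm4
import Pool.Agent.P8H59.TI.Th

/-! # TI/TH3 (helper94): the levels above `t` -/

set_option autoImplicit false
set_option linter.all false

namespace Pool.Agent.P8H94.TI

open Finset
open Pool.Agent.P8H39.TI Pool.Agent.P8H59.TI

theorem alt (i : ℕ) (hi : i ≠ 0) :
    ∑ e ∈ range (i + 1), (-1 : ℝ) ^ (i - e) * (i.choose e : ℝ) = 0 := by
  have h := add_pow (1 : ℝ) (-1) i
  rw [add_neg_cancel, zero_pow hi] at h
  rw [h]
  refine sum_congr rfl fun e _ => ?_
  simp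

theorem lamb_shift (n k r j : ℕ) (b : ℕ → ℝ) (δ : ℝ) (hj : 1 ≤ j) (hr : 1 ≤ r) :
    lamb n k r (fun e => b e - δ) j = lamb n k r b j := by
  unfold lamb
  have key : ∑ i ∈ range (r + 1), (∑ e ∈ range (i + 1), (-1 : ℝ) ^ (i - e) * (i.choose e : ℝ) * (b e - δ)) *
      ((n - i - j).choose (k - j) : ℝ) * ((r - j).choose (r - i) : ℝ) =
      ∑ i ∈ range (r + 1), (∑ e ∈ range (i + 1), (-1 : ℝ) ^ (i - e) * (i.choose e : ℝ) * b e) *
      ((n - i - j).choose (k - j) : ℝ) * ((r - j).choose (r - i) : ℝ) := by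
    refine sum_congr rfl fun i _ => ?_
    by_cases hi : i = 0
    · subst hi
      have h0 : (r - j).choose (r - 0) = 0 := Nat.choose_eq_zero_of_lt (by omega)
      rw [h0]
      simp
    · have e1 : ∑ e ∈ range (i + 1), (-1 : ℝ) ^ (i - e) * (i.choose e : ℝ) * (b e - δ) =
          ∑ e ∈ range (i + 1), (-1 : ℝ) ^ (i - e) * (i.choose e : ℝ) * b e := by
        rw [← sub_eq_zero, ← sum_sub_distrib]
        have e2 : ∀ e ∈ range (i + 1), (-1 : ℝ) ^ (i - e) * (i.choose e : ℝ) * (b e - δ) -
            (-1 : ℝ) ^ (i - e) * (i.choose e : ℝ) * b e = -δ * ((-1 : ℝ) ^ (i - e) * (i.choose e : ℝ)) := by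
          intro e _
          ring
        rw [sum_congr rfl e2, ← mul_sum, alt i hi, mul_zero]
      rw [e1]
  rw [key]

/-- the degrees are at most `C(n-r, k-r)` -/
theorem deg_le {n k t r : ℕ} {F : Finset (Finset (Fin n))} (hF : TInt k t F) {R : Finset (Fin n)}
    (hR : R.card = r) (hrk : r ≤ k) (hkn : k ≤ n) : deg F R ≤ (n - r).choose (k - r) := by
  rw [← card_star (k := k) hR hrk hkn]
  unfold deg
  refine card_le_card fun A hA => ?_
  rw [mem_filter] at hA
  rw [mem_star]
  exact ⟨hF.1 A hA.1, hA.2⟩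

/-- the main case -/
theorem th3_main (hL : S_LVL3) (hB : S_BPOS) (hM : S_LAM) (n k t a : ℕ) (c : ℝ)
    (F : Finset (Finset (Fin n))) (T : Finset (Fin n)) (h1 : 1 ≤ t) (ha : 1 ≤ a) (hk : t + a < k)
    (hn : t + 8 * (t + a) * (k - t) ≤ n) (hF : TInt k t F) (hT : T.card = t) (hc : 0 ≤ c)
    (hcs : c ≤ ((n - t - (a + 1)).choose (n - k) : ℝ)) :
    ∑ R ∈ slice n (t + a), (max ((deg F R : ℝ) - c) 0) ^ 2 ≤
      ∑ R ∈ slice n (t + a), (max ((deg (star k T) R : ℝ) - c) 0) ^ 2 := by
  classical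
  obtain ⟨κ, rfl⟩ : ∃ κ, k = t + κ := ⟨k - t, by omega⟩
  rw [Nat.add_sub_cancel_left] at hn
  have haκ : a + 1 ≤ κ := by omega
  have hn1 : 8 * (t + a) * κ + t ≤ n := by omega
  have hq1 : 8 * ((t + a) * κ) = 8 * (t + a) * κ := by ring
  have hq2 : 2 * κ ≤ (t + a) * κ := Nat.mul_le_mul_right _ (by omega)
  have hq3 : (t + a) * 2 ≤ (t + a) * κ := Nat.mul_le_mul_left _ (by omega)
  have hkn : t + κ ≤ n := by omega
  have hnL : t + 8 * (t + 1) * (t + κ - t) ≤ n := by
    rw [Nat.add_sub_cancel_left]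
    have : 8 * (t + 1) * κ ≤ 8 * (t + a) * κ := Nat.mul_le_mul_right _ (by omega)
    omega
  obtain ⟨hFS, x, z, hx0, hxz, hx, hz, hz0⟩ := hL n (t + κ) t F T h1 (by omega) hnL hF hT
  have hcard := card_star (k := t + κ) hT (by omega) hkn
  have hDpos : 0 < (star (t + κ) T).card := by
    rw [hcard]
    exact Nat.choose_pos (by omega)
  have hDR : (0 : ℝ) < ((star (t + κ) T).card : ℝ) := by exact_mod_cast hDpos
  have hFD : (F.card : ℝ) ≤ ((star (t + κ) T).card : ℝ) := by exact_mod_cast hFS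
  have hνκ : n - t - (t + κ - t) = n - (t + κ) := by omega
  have hrk : (t + a + 1) * (t + κ - t) + 1 ≤ n - t := by
    rw [Nat.add_sub_cancel_left]
    have : (t + a + 1) * κ = (t + a) * κ + κ := by ring
    omega
  have hrk2 : (t + a) + (t + κ) ≤ n := by omega
  have hcD : c ≤ ((n - t).choose (t + κ - t) : ℝ) := by
    refine hcs.trans ?_
    have e1 : (n - t).choose (t + κ - t) = (n - t).choose (n - (t + κ)) := by
      rw [← hνκ, Nat.choose_symm (by omega)]
    rw [e1]
    exact_mod_cast Nat.choose_le_choose _ (by omega)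
  obtain ⟨b, b1, b2, b3⟩ := hB (n - t) (t + κ - t) (t + a) c (by omega) hrk hc hcD
  set D : ℝ := ((star (t + κ) T).card : ℝ) with hD
  obtain ⟨b', hb'⟩ : ∃ b' : ℕ → ℝ, b' = fun e => b e - c / D := ⟨_, rfl⟩
  have key1 : ∑ R ∈ slice n (t + a), (max ((deg F R : ℝ) - c) 0) ^ 2 ≤
      ∑ R ∈ slice n (t + a), (∑ A ∈ F, b' (R \ A).card) ^ 2 := by
    refine Finset.sum_le_sum fun R _ => ?_
    have e1 : (deg F R : ℝ) - c ≤ ∑ A ∈ F, b' (R \ A).card := by
      simp only [hb', Finset.sum_sub_distrib, Finset.sum_const, nsmul_eq_mul]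
      have e2 : (deg F R : ℝ) ≤ ∑ A ∈ F, b (R \ A).card := by
        unfold deg
        have : ((F.filter (fun A => R ⊆ A)).card : ℝ) =
            ∑ A ∈ F.filter (fun A => R ⊆ A), b (R \ A).card := by
          rw [Finset.sum_congr rfl (g := fun _ => (1 : ℝ))]
          · simp
          · intro A hA
            rw [Finset.mem_filter] at hA
            rw [Finset.sdiff_eq_empty_iff_subset.mpr hA.2, Finset.card_empty, b1]
        rw [this]
        exact Finset.sum_le_sum_of_subset_of_nonneg (Finset.filter_subset _ _)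
          (fun A _ _ => b2 _)
      have e3 : (F.card : ℝ) * (c / D) ≤ c := by
        rw [mul_div_assoc', div_le_iff₀ hDR]
        have := mul_le_mul_of_nonneg_right hFD hc
        linarith
      linarith
    rcases le_total 0 ((deg F R : ℝ) - c) with e4 | e4
    · rw [max_eq_left e4]
      exact pow_le_pow_left₀ e4 e1 2
    · rw [max_eq_right e4]
      calc (0 : ℝ) ^ 2 = 0 := by norm_num
        _ ≤ _ := sq_nonneg _
  -- the star
  have key3 : ∑ R ∈ slice n (t + a), (∑ A ∈ star (t + κ) T, b' (R \ A).card) ^ 2 =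
      ∑ R ∈ slice n (t + a), (max ((deg (star (t + κ) T) R : ℝ) - c) 0) ^ 2 := by
    refine Finset.sum_congr rfl fun R hR => ?_
    rw [Finset.mem_powersetCard] at hR
    have hl : (R \ T).card ≤ t + a := by rw [← hR.2]; exact Finset.card_le_card Finset.sdiff_subset
    simp only [hb', Finset.sum_sub_distrib, Finset.sum_const, nsmul_eq_mul]
    rw [sum_star hT (by omega) hR.2 hrk2, b3 _ hl, deg_star hT (by omega) hkn, ← hD,
      mul_div_cancel₀ _ hDR.ne']
    congr 1
    rcases le_total c (((n - t - (R \ T).card).choose (n - t - (t + κ - t)) : ℕ) : ℝ) with e5 | e5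
    · rw [max_eq_left e5, max_eq_left (by linarith)]
    · rw [max_eq_right e5, max_eq_right (by linarith)]
      ring
  set V : ℝ := ∑ R ∈ slice n (t + a), (max ((deg (star (t + κ) T) R : ℝ) - c) 0) ^ 2 with hV
  have hV0 : 0 ≤ V := sum_nonneg fun _ _ => sq_nonneg _
  -- a lower bound of `V`
  have hVlow : ((n - t).choose a : ℝ) * (((n - t - a).choose (n - (t + κ)) : ℝ) -
      ((n - t - (a + 1)).choose (n - (t + κ)) : ℝ)) ^ 2 ≤ V := by
    have e1 : ((star (t + a) T).card : ℝ) = ((n - t).choose a : ℝ) := by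
      rw [card_star (k := t + a) hT (by omega) (by omega), Nat.add_sub_cancel_left]
    have hmono : (((n - t - (a + 1)).choose (n - (t + κ)) : ℕ) : ℝ) ≤
        (((n - t - a).choose (n - (t + κ)) : ℕ) : ℝ) := by
      exact_mod_cast Nat.choose_le_choose _ (by omega)
    rw [← e1, ← nsmul_eq_mul, ← sum_const]
    refine (sum_le_sum (g := fun R => (max ((deg (star (t + κ) T) R : ℝ) - c) 0) ^ 2) fun R hR => ?_).trans
      (sum_le_sum_of_subset_of_nonneg (filter_subset _ _) fun _ _ _ => sq_nonneg _)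
    rw [mem_star] at hR
    have hl : (R \ T).card = a := by
      rw [card_sdiff_of_subset hR.2, hR.1, hT]
      omega
    rw [deg_star hT (by omega) hkn, hl, hνκ]
    refine pow_le_pow_left₀ (by linarith) ?_ 2
    exact le_max_of_le_left (by linarith)
  -- the sums over the degrees
  have hVz : V = ∑ j ∈ range (t + 1), lamb n (t + κ) (t + a) b' j * z j := by
    rw [← key3, hz (t + a) (by omega) b']
    symm
    refine sum_subset (fun j hj => ?_) (fun j hj hj' => ?_)
    · rw [mem_range] at hj ⊢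
      omega
    · rw [mem_range] at hj hj'
      rw [hz0 j (by omega) (by omega), mul_zero]
  have hlow : (∑ j ∈ range (t + 1), lamb n (t + κ) (t + a) b' j * x j) * D +
      7 / 4 * V * ∑ j ∈ Ioc t (t + κ), x j ≤ V * D := by
    have e1 : ∀ j ∈ range (t + 1), lamb n (t + κ) (t + a) b' j * x j * D +
        7 / 4 * (lamb n (t + κ) (t + a) b' j * z j) * ∑ j ∈ Ioc t (t + κ), x j ≤
        lamb n (t + κ) (t + a) b' j * z j * D := by
      intro j hj
      rw [mem_range] at hj
      have h := mul_le_mul_of_nonneg_left (hxz j (by omega)) (lamb_nonneg n (t + κ) (t + a) b' j)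
      nlinarith [h]
    have e2 := sum_le_sum e1
    rw [sum_add_distrib, ← sum_mul, ← sum_mul, ← sum_mul, ← mul_sum, ← hVz] at e2
    exact e2
  have hhigh : (∑ j ∈ Ioc t (t + a), lamb n (t + κ) (t + a) b' j * x j) * D ≤
      7 / 4 * V * ∑ j ∈ Ioc t (t + κ), x j := by
    have e1 : ∀ j ∈ Ioc t (t + a), lamb n (t + κ) (t + a) b' j * x j * D ≤ 7 / 4 * V * x j := by
      intro j hj
      rw [mem_Ioc] at hj
      obtain ⟨m, rfl⟩ : ∃ m, j = t + m := ⟨j - t, by omega⟩
      have h := hM n (t + κ) t a m c b h1 (by omega) (by omega) hk (by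
        rw [Nat.add_sub_cancel_left]; exact hn) hc hcs b3
      have e3 : lamb n (t + κ) (t + a) b' (t + m) = lamb n (t + κ) (t + a) b (t + m) := by
        rw [hb']
        exact lamb_shift _ _ _ _ _ _ (by omega) (by omega)
      have e4 : lamb n (t + κ) (t + a) b (t + m) * D ≤ 7 / 4 * V := by
        rw [hD, hcard]
        exact h.trans (mul_le_mul_of_nonneg_left hVlow (by norm_num))
      rw [e3]
      have h2 := mul_le_mul_of_nonneg_right e4 (hx0 (t + m))
      linarith
    rw [sum_mul]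
    refine (sum_le_sum e1).trans ?_
    rw [← mul_sum]
    refine mul_le_mul_of_nonneg_left ?_ (by positivity)
    refine sum_le_sum_of_subset_of_nonneg (fun j hj => ?_) fun j _ _ => hx0 j
    rw [mem_Ioc] at hj ⊢
    omega
  have hsplit : ∑ j ∈ range (t + a + 1), lamb n (t + κ) (t + a) b' j * x j =
      ∑ j ∈ range (t + 1), lamb n (t + κ) (t + a) b' j * x j +
        ∑ j ∈ Ioc t (t + a), lamb n (t + κ) (t + a) b' j * x j := by
    rw [← sum_union]
    · refine sum_congr ?_ fun _ _ => rfl
      ext j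
      rw [mem_union, mem_range, mem_range, mem_Ioc]
      omega
    · rw [disjoint_left]
      intro j hj hj'
      rw [mem_range] at hj
      rw [mem_Ioc] at hj'
      omega
  refine key1.trans ?_
  rw [hx (t + a) (by omega) b', hsplit]
  refine le_of_mul_le_mul_right ?_ hDR
  rw [add_mul]
  linarith

/-- **TH3** -/
theorem t_TH3 (hL : S_LVL3) (hB : S_BPOS) (hM : S_LAM) : S_TH3 := by
  classical
  intro n k t r c F T h1 h2 h3 hn hF hT hc
  obtain ⟨a, rfl⟩ : ∃ a, r = t + a := ⟨r - t, by omega⟩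
  have hκ : 1 ≤ k - t := by omega
  have hkn : k ≤ n := by
    have h4 : 8 * (t + a) * 1 ≤ 8 * (t + a) * (k - t) := Nat.mul_le_mul_left _ hκ
    have h5 : 1 * (k - t) ≤ 8 * (t + a) * (k - t) := Nat.mul_le_mul_right _ (by omega)
    omega
  set sa : ℝ := ((n - t - a).choose (n - k) : ℝ) with hsa
  set sb : ℝ := ((n - t - (a + 1)).choose (n - k) : ℝ) with hsb
  have hsb0 : 0 ≤ sb := by positivity
  have hab : sb < sa := by
    have h4 : 8 * (t + a) * 1 ≤ 8 * (t + a) * (k - t) := Nat.mul_le_mul_left _ hκ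
    have h5 : 2 * (k - t) ≤ 8 * (t + a) * (k - t) := Nat.mul_le_mul_right _ (by omega)
    obtain ⟨q, hq⟩ : ∃ q, n - k = q + 1 := ⟨n - k - 1, by omega⟩
    obtain ⟨N, hN⟩ : ∃ N, n - t - a = N + 1 := ⟨n - t - a - 1, by omega⟩
    have hN2 : n - t - (a + 1) = N := by omega
    rw [hsa, hsb, hq, hN, hN2, Nat.choose_succ_succ]
    have h6 : 0 < N.choose q := Nat.choose_pos (by omega)
    exact_mod_cast (by omega : N.choose (q + 1) < N.choose q + N.choose (q + 1))
  have hdF : ∀ R ∈ slice n (t + a), (deg F R : ℝ) ≤ sa := by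
    intro R hR
    rw [mem_powersetCard] at hR
    have h := deg_le (k := k) hF hR.2 (by omega) hkn
    have e : (n - (t + a)).choose (k - (t + a)) = (n - t - a).choose (n - k) := by
      rw [← Nat.choose_symm (by omega)]
      congr 1 <;> omega
    rw [e] at h
    rw [hsa]
    exact_mod_cast h
  have hdS : ∀ R ∈ slice n (t + a), (deg (star k T) R : ℝ) = sa ∨ (deg (star k T) R : ℝ) ≤ sb := by
    intro R hR
    rw [mem_powersetCard] at hR
    rw [deg_star hT (by omega) hkn]
    have hl : a ≤ (R \ T).card := by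
      have h := Finset.le_card_sdiff T R
      rw [hR.2, hT] at h
      omega
    have hν : n - t - (k - t) = n - k := by omega
    rw [hν]
    rcases hl.eq_or_lt with h | h
    · left
      rw [← h]
    · right
      rw [hsb]
      exact_mod_cast Nat.choose_le_choose _ (by omega)
  rcases le_total c sb with hcb | hcb
  · exact th3_main hL hB hM n k t a c F T h1 (by omega) h3 hn hF hT hc hcb
  rcases le_total sa c with hca | hca
  · have e1 : ∀ R ∈ slice n (t + a), (max ((deg F R : ℝ) - c) 0) ^ 2 = 0 := by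
      intro R hR
      rw [max_eq_right (by linarith [hdF R hR])]
      norm_num
    rw [Finset.sum_congr rfl e1, Finset.sum_const_zero]
    exact Finset.sum_nonneg fun R _ => by positivity
  · have hd : 0 < sa - sb := by linarith
    set ρ : ℝ := (sa - c) / (sa - sb) with hρ
    have hρ0 : 0 ≤ ρ := div_nonneg (by linarith) hd.le
    have hρ1 : ρ * (sa - sb) = sa - c := div_mul_cancel₀ _ hd.ne'
    have hmain := th3_main hL hB hM n k t a sb F T h1 (by omega) h3 hn hF hT hsb0 le_rfl
    calc ∑ R ∈ slice n (t + a), (max ((deg F R : ℝ) - c) 0) ^ 2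
        ≤ ∑ R ∈ slice n (t + a), ρ ^ 2 * (max ((deg F R : ℝ) - sb) 0) ^ 2 := by
          refine sum_le_sum fun R hR => ?_
          rw [← mul_pow]
          refine pow_le_pow_left₀ (le_max_right _ _) ?_ 2
          have h := hdF R hR
          refine max_le ?_ (mul_nonneg hρ0 (le_max_right _ _))
          rcases le_total c (deg F R : ℝ) with h5 | h5
          · refine le_trans ?_ (mul_le_mul_of_nonneg_left (le_max_left _ _) hρ0)
            have h6 : ρ ≤ 1 := by
              rw [hρ, div_le_one hd]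
              linarith
            nlinarith
          · exact le_trans (by linarith) (mul_nonneg hρ0 (le_max_right _ _))
      _ = ρ ^ 2 * ∑ R ∈ slice n (t + a), (max ((deg F R : ℝ) - sb) 0) ^ 2 := by rw [mul_sum]
      _ ≤ ρ ^ 2 * ∑ R ∈ slice n (t + a), (max ((deg (star k T) R : ℝ) - sb) 0) ^ 2 :=
          mul_le_mul_of_nonneg_left hmain (sq_nonneg _)
      _ = ∑ R ∈ slice n (t + a), ρ ^ 2 * (max ((deg (star k T) R : ℝ) - sb) 0) ^ 2 := by rw [mul_sum]
      _ ≤ ∑ R ∈ slice n (t + a), (max ((deg (star k T) R : ℝ) - c) 0) ^ 2 := by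
          refine sum_le_sum fun R hR => ?_
          rw [← mul_pow]
          refine pow_le_pow_left₀ (mul_nonneg hρ0 (le_max_right _ _)) ?_ 2
          rcases hdS R hR with h5 | h5
          · rw [h5, max_eq_left hd.le, hρ1]
            exact le_max_left _ _
          · rw [max_eq_right (by linarith), mul_zero]
            exact le_max_right _ _

end Pool.Agent.P8H94.TI
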